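import Pool.Agent.Lib.MP_5d7181_co.Defs

set_option autoImplicit false

open Finset

namespace Pool.Agent.Lib.MP_5d7181_co

variable {d : ℕ}

/-- Flip one coordinate. -/
def flp (x : Fin d → ZMod 2) (i : Fin d) : Fin d → ZMod 2 := x + Pi.single i 1

theorem two_zero (x : Fin d → ZMod 2) : x + x = 0 := by
  funext i
  exact CharTwo.add_self_eq_zero (x i)

theorem flp_flp (x : Fin d → ZMod 2) (i : Fin d) : flp (flp x i) i = x := by
  unfold flp
  rw [add_assoc, two_zero, add_zero]

theorem flp_comm (x : Fin d → ZMod 2) (i j : Fin d) : flp (flp x i) j = flp (flp x j) i := by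
  unfold flp
  rw [add_assoc, add_assoc, add_comm (Pi.single i 1)]

theorem flp_inj (x : Fin d → ZMod 2) : Function.Injective (flp x) := by
  intro i j h
  unfold flp at h
  have h1 := congrFun (add_left_cancel h) i
  by_contra hne
  rw [Pi.single_eq_same, Pi.single_eq_of_ne hne] at h1
  exact one_ne_zero h1

theorem flp_inj_left (i : Fin d) : Function.Injective (fun x : Fin d → ZMod 2 => flp x i) := by
  intro x y h
  exact add_right_cancel h

/-- Flipping a coordinate as a permutation. -/
def flpEquiv (i : Fin d) : (Fin d → ZMod 2) ≃ (Fin d → ZMod 2) where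
  toFun x := flp x i
  invFun x := flp x i
  left_inv x := flp_flp x i
  right_inv x := flp_flp x i

theorem zmod2_ne (a b : ZMod 2) (h : a ≠ b) : b = a + 1 := by
  revert a b; decide

theorem zmod2_succ_ne (a : ZMod 2) : a + 1 ≠ a := by
  revert a; decide

theorem adj_iff (x y : Fin d → ZMod 2) : (cube d).Adj x y ↔ ∃ i, y = flp x i := by
  change hammingDist x y = 1 ↔ _
  unfold hammingDist
  rw [Finset.card_eq_one]
  constructor
  · rintro ⟨i, hi⟩
    refine ⟨i, funext fun j => ?_⟩
    have hj : x j ≠ y j ↔ j = i := by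
      have := Finset.ext_iff.1 hi j
      simpa using this
    unfold flp
    by_cases h : j = i
    · subst h
      rw [Pi.add_apply, Pi.single_eq_same]
      exact zmod2_ne _ _ (hj.2 rfl)
    · rw [Pi.add_apply, Pi.single_eq_of_ne h, add_zero]
      by_contra h2
      exact h (hj.1 (Ne.symm h2))
  · rintro ⟨i, rfl⟩
    refine ⟨i, Finset.ext fun j => ?_⟩
    unfold flp
    by_cases h : j = i
    · subst h
      simp
    · simp [h]

open Classical in
theorem ncard_nbr (S : Set (Fin d → ZMod 2)) (v : Fin d → ZMod 2) :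
    ((cube d).neighborSet v ∩ S).ncard = #{i | flp v i ∈ S} := by
  have : (cube d).neighborSet v ∩ S = flp v '' ((univ.filter fun i => flp v i ∈ S : Finset _)) := by
    ext y
    simp only [Set.mem_inter_iff, SimpleGraph.mem_neighborSet, adj_iff, Set.mem_image, coe_filter,
      mem_univ, true_and, Set.mem_ofPred_eq]
    constructor
    · rintro ⟨⟨i, rfl⟩, h⟩
      exact ⟨i, h, rfl⟩
    · rintro ⟨i, h, rfl⟩
      exact ⟨⟨i, rfl⟩, h⟩
  rw [this, Set.ncard_image_of_injective _ (flp_inj v), Set.ncard_coe_finset]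

/-- Parity of the weight. -/
def par (x : Fin d → ZMod 2) : ZMod 2 := ∑ i, x i

theorem par_flp (x : Fin d → ZMod 2) (i : Fin d) : par (flp x i) = par x + 1 := by
  unfold par flp
  simp [Finset.sum_add_distrib]

theorem card_par (hd : 0 < d) (c : ZMod 2) :
    #{x : Fin d → ZMod 2 | par x = c} = 2 ^ (d - 1) := by
  have h1 : #{x : Fin d → ZMod 2 | par x = c} = #{x : Fin d → ZMod 2 | ¬ par x = c} := by
    refine Finset.card_bijective (flpEquiv ⟨0, hd⟩) (flpEquiv ⟨0, hd⟩).bijective fun x => ?_
    simp only [mem_filter, mem_univ, true_and]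
    change _ ↔ ¬ par (flp x _) = c
    rw [par_flp]
    generalize par x = a
    revert a c; decide
  have h2 := Finset.card_filter_add_card_filter_not (s := (univ : Finset (Fin d → ZMod 2)))
    (fun x => par x = c)
  rw [← h1, card_univ, Fintype.card_fun, ZMod.card, Fintype.card_fin] at h2
  obtain ⟨e, rfl⟩ : ∃ e, d = e + 1 := ⟨d - 1, by omega⟩
  rw [pow_succ] at h2
  rw [Nat.add_sub_cancel]
  omega

theorem le_alphaOd (S : Set (Fin d → ZMod 2)) (hS : OddIndep (cube d) S) :
    S.ncard ≤ alphaOd (cube d) := by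
  apply le_csSup
  · refine ⟨Nat.card (Fin d → ZMod 2), ?_⟩
    rintro n ⟨T, _, rfl⟩
    exact Set.ncard_le_card T
  · exact ⟨S, hS, rfl⟩

theorem exists_alphaOd : ∃ S : Set (Fin d → ZMod 2), OddIndep (cube d) S ∧
    S.ncard = alphaOd (cube d) := by
  have : alphaOd (cube d) ∈ {n : ℕ | ∃ S : Set (Fin d → ZMod 2), OddIndep (cube d) S ∧
      S.ncard = n} := by
    apply Nat.sSup_mem
    · refine ⟨0, ∅, ⟨?_, fun v _ => Or.inl (Set.inter_empty _)⟩, Set.ncard_empty _⟩
      exact Set.pairwise_empty _
    · refine ⟨Nat.card (Fin d → ZMod 2), ?_⟩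
      rintro n ⟨T, _, rfl⟩
      exact Set.ncard_le_card T
  exact this

end Pool.Agent.Lib.MP_5d7181_co
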