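import Mathlib

set_option autoImplicit false

namespace Pool.Agent.Lib.MP_5d7181_co

/-- The hypercube graph on 0-1 vectors of length d. -/
def cube (d : ℕ) : SimpleGraph (Fin d → ZMod 2) where
  Adj x y := hammingDist x y = 1
  symm := ⟨fun x y h => by rw [hammingDist_comm]; exact h⟩
  loopless := ⟨fun x h => by simp at h⟩

/-- Odd independent sets. -/
def OddIndep {V : Type} (G : SimpleGraph V) (S : Set V) : Prop :=
  G.IsIndepSet S ∧ ∀ v, v ∉ S → (G.neighborSet v ∩ S = ∅ ∨ Odd (G.neighborSet v ∩ S).ncard)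

/-- The odd independence number. -/
noncomputable def alphaOd {V : Type} (G : SimpleGraph V) : ℕ :=
  sSup {n : ℕ | ∃ S : Set V, OddIndep G S ∧ S.ncard = n}

end Pool.Agent.Lib.MP_5d7181_co
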