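import Pool.Agent.Lib.MP_5d7181_co.Upper

set_option autoImplicit false

open Finset

namespace Pool.Agent.Lib.MP_5d7181_co

theorem exists_columns (d k : ℕ) (hk : 0 < k) (hkd : 2 ^ k ≤ d) (he : Even d) :
    ∃ h : Fin d → (Fin k → ZMod 2), ∀ s, Odd #{i | h i = s} := by
  classical
  obtain ⟨m, hm⟩ : ∃ m, d = 2 ^ k + 2 * m := by
    obtain ⟨a, ha⟩ := he
    obtain ⟨j, rfl⟩ : ∃ j, k = j + 1 := ⟨k - 1, by omega⟩
    rw [pow_succ] at hkd ⊢
    exact ⟨a - 2 ^ j, by omega⟩
  have e : Fin d ≃ (Fin k → ZMod 2) ⊕ Fin (2 * m) :=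
    Fintype.equivOfCardEq (by simp [hm])
  refine ⟨fun i => Sum.elim id (fun _ => 0) (e i), fun s => ?_⟩
  have h1 : #{i | Sum.elim id (fun _ => 0) (e i) = s} =
      #{j : (Fin k → ZMod 2) ⊕ Fin (2 * m) | Sum.elim id (fun _ => 0) j = s} :=
    Finset.card_bijective e e.bijective fun i => by simp
  rw [h1, Finset.card_filter, Fintype.sum_sum_type]
  have h2 : (∑ a : Fin k → ZMod 2, if a = s then 1 else 0 : ℕ) = 1 := by simp
  have h3 : Even (∑ _b : Fin (2 * m), if (0 : Fin k → ZMod 2) = s then 1 else 0 : ℕ) := by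
    rw [Finset.sum_const, card_univ, Fintype.card_fin, smul_eq_mul]
    exact (even_two_mul m).mul_right _
  have h4 : Odd ((∑ a : Fin k → ZMod 2, if a = s then 1 else 0 : ℕ) +
      (∑ _b : Fin (2 * m), if (0 : Fin k → ZMod 2) = s then 1 else 0 : ℕ)) := by
    rw [h2]
    exact odd_one.add_even h3
  exact h4

/-- The syndrome map together with the parity. -/
def synd {d k : ℕ} (h : Fin d → (Fin k → ZMod 2)) :
    (Fin d → ZMod 2) →+ ZMod 2 × (Fin k → ZMod 2) where
  toFun x := (par x, ∑ i, x i • h i)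
  map_zero' := by simp [par]
  map_add' x y := by simp [par, add_smul, Finset.sum_add_distrib]

theorem synd_single {d k : ℕ} (h : Fin d → (Fin k → ZMod 2)) (i : Fin d) :
    synd h (Pi.single i 1) = (1, h i) := by
  simp [synd, par, Pi.single_apply]

theorem synd_flp {d k : ℕ} (h : Fin d → (Fin k → ZMod 2)) (x : Fin d → ZMod 2) (i : Fin d) :
    synd h (flp x i) = synd h x + (1, h i) := by
  unfold flp
  rw [map_add, synd_single]

theorem lower (d k : ℕ) (hk : 0 < k) (hkd : 2 ^ k ≤ d) (he : Even d) :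
    2 ^ (d - 1) ≤ alphaOd (cube d) + 2 ^ (d - 1 - k) := by
  classical
  obtain ⟨h, hh⟩ := exists_columns d k hk hkd he
  have hd : 0 < d := lt_of_lt_of_le (by positivity) hkd
  have hsurj : ∀ s, ∃ i, h i = s := by
    intro s
    obtain ⟨i, hi⟩ := Finset.card_pos.1 (hh s).pos
    exact ⟨i, (Finset.mem_filter.1 hi).2⟩
  have z2 : ∀ a : ZMod 2, a = 0 ∨ a = 1 := by decide
  have hrange : (synd h).range = ⊤ := by
    rw [eq_top_iff]
    rintro ⟨a, s⟩ _
    obtain ⟨i, hi⟩ := hsurj s
    obtain ⟨j, hj⟩ := hsurj 0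
    rcases z2 a with rfl | rfl
    · refine ⟨Pi.single i 1 + Pi.single j 1, ?_⟩
      rw [map_add, synd_single, synd_single, hi, hj]
      ext <;> simp
      decide
    · exact ⟨Pi.single i 1, by rw [synd_single, hi]⟩
  have hker : Nat.card (synd h).ker = 2 ^ (d - 1 - k) := by
    have h1 := AddSubgroup.card_mul_index (synd h).ker
    rw [AddSubgroup.index_ker, hrange] at h1
    have h2 : Nat.card (⊤ : AddSubgroup (ZMod 2 × (Fin k → ZMod 2))) = 2 ^ (k + 1) := by
      rw [AddSubgroup.card_top]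
      simp [pow_succ, mul_comm]
    have h3 : Nat.card (Fin d → ZMod 2) = 2 ^ d := by simp
    rw [h2, h3] at h1
    have h4 : k < d := lt_of_lt_of_le Nat.lt_two_pow_self hkd
    have h5 : 2 ^ d = 2 ^ (d - 1 - k) * 2 ^ (k + 1) := by
      rw [← pow_add]; congr 1; omega
    rw [h5] at h1
    exact Nat.eq_of_mul_eq_mul_right (by positivity) h1
  let S : Finset (Fin d → ZMod 2) := univ.filter fun x => (synd h x).1 = 0 ∧ (synd h x).2 ≠ 0
  have hS : OddIndep (cube d) (S : Set _) := by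
    constructor
    · intro x hx y hy _ hadj
      obtain ⟨i, rfl⟩ := (adj_iff _ _).1 hadj
      have h1 := (Finset.mem_filter.1 (Finset.mem_coe.1 hx)).2.1
      have h2 := (Finset.mem_filter.1 (Finset.mem_coe.1 hy)).2.1
      rw [synd_flp, Prod.fst_add, h1, zero_add] at h2
      exact one_ne_zero h2
    · intro v _
      rcases z2 (synd h v).1 with h0 | h1
      · left
        rw [Set.eq_empty_iff_forall_notMem]
        rintro y ⟨hadj, hy⟩
        obtain ⟨i, rfl⟩ := (adj_iff _ _).1 hadj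
        have h2 := (Finset.mem_filter.1 (Finset.mem_coe.1 hy)).2.1
        rw [synd_flp, Prod.fst_add, h0, zero_add] at h2
        exact one_ne_zero h2
      · right
        rw [ncard_nbr]
        have h2 := Finset.card_filter_add_card_filter_not (s := (univ : Finset (Fin d)))
          (fun i => h i = (synd h v).2)
        rw [card_univ, Fintype.card_fin] at h2
        have h3 := hh (synd h v).2
        have h4 : Odd #{i | ¬ h i = (synd h v).2} := by
          obtain ⟨a, ha⟩ := he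
          obtain ⟨b, hb⟩ := h3
          exact ⟨a - b - 1, by omega⟩
        convert h4 using 2
        ext i
        simp only [S, mem_filter, mem_univ, true_and, mem_coe, synd_flp, Prod.fst_add,
          Prod.snd_add, h1]
        have e : (1 : ZMod 2) + 1 = 0 := by decide
        simp only [e, true_and]
        apply not_congr
        constructor
        · intro h5
          have := congrArg (· + h i) h5
          simp only [add_assoc, two_zero, add_zero, zero_add] at this
          exact this.symm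
        · intro h5
          rw [h5, two_zero]
  have hle := le_alphaOd _ hS
  rw [Set.ncard_coe_finset] at hle
  have hK : #{x | synd h x = 0} = 2 ^ (d - 1 - k) := by
    rw [← hker, ← Fintype.card_coe, ← Nat.card_eq_fintype_card]
    refine Nat.card_congr (Equiv.subtypeEquivRight fun x => ?_)
    simp [AddMonoidHom.mem_ker]
  have hsum : #{x : Fin d → ZMod 2 | par x = 0} ≤ #S + #{x | synd h x = 0} := by
    refine le_trans (Finset.card_le_card ?_) (Finset.card_union_le _ _)
    intro x hx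
    have hx0 : (synd h x).1 = 0 := (Finset.mem_filter.1 hx).2
    by_cases h2 : (synd h x).2 = 0
    · exact Finset.mem_union_right _ (Finset.mem_filter.2 ⟨mem_univ _, Prod.ext hx0 h2⟩)
    · exact Finset.mem_union_left _ (Finset.mem_filter.2 ⟨mem_univ _, hx0, h2⟩)
  rw [card_par hd, hK] at hsum
  omega

theorem lower_log (d : ℕ) (hd : 0 < d) (he : Even d) :
    2 ^ (d - 1) ≤ alphaOd (cube d) + 2 ^ (d - 1 - Nat.log 2 d) := by
  have h2 : 2 ≤ d := by obtain ⟨a, ha⟩ := he; omega
  exact lower d _ (Nat.log_pos (by norm_num) h2) (Nat.pow_log_le_self 2 hd.ne') he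

theorem lower_real (d : ℕ) (hd : 0 < d) (he : Even d) :
    (1 - 1 / (2 : ℝ) ^ Nat.log 2 d) * 2 ^ (d - 1) ≤ alphaOd (cube d) := by
  have h := lower_log d hd he
  have hk : Nat.log 2 d < d := lt_of_lt_of_le Nat.lt_two_pow_self (Nat.pow_log_le_self 2 hd.ne')
  have h1 : (2 : ℝ) ^ (d - 1) = 2 ^ (d - 1 - Nat.log 2 d) * 2 ^ Nat.log 2 d := by
    rw [← pow_add]; congr 1; omega
  have h2 : (2 : ℝ) ^ (d - 1) ≤ alphaOd (cube d) + 2 ^ (d - 1 - Nat.log 2 d) := by exact_mod_cast h
  have h3 : (1 - 1 / (2 : ℝ) ^ Nat.log 2 d) * 2 ^ (d - 1) =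
      2 ^ (d - 1) - 2 ^ (d - 1 - Nat.log 2 d) := by
    rw [sub_mul, one_mul]
    congr 1
    rw [h1]
    field_simp
  linarith

theorem upper_real (d : ℕ) (hd : 0 < d) (he : Even d) :
    (alphaOd (cube d) : ℝ) ≤ (1 - 1 / (d : ℝ)) * 2 ^ (d - 1) := by
  have h : (d : ℝ) * alphaOd (cube d) + 2 ^ (d - 1) ≤ d * 2 ^ (d - 1) := by
    exact_mod_cast upper hd he
  have hd' : (0 : ℝ) < d := by exact_mod_cast hd
  have : (1 - 1 / (d : ℝ)) * 2 ^ (d - 1) = (d * 2 ^ (d - 1) - 2 ^ (d - 1)) / d := by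
    field_simp
  rw [this, le_div_iff₀ hd']
  linarith

theorem exact_pow_two (k : ℕ) (hk : 0 < k) :
    alphaOd (cube (2 ^ k)) = 2 ^ (2 ^ k - 1) - 2 ^ (2 ^ k - 1 - k) := by
  have he : Even (2 ^ k) := (Nat.even_pow' hk.ne').2 even_two
  have h1 := lower (2 ^ k) k hk le_rfl he
  have h2 := upper (d := 2 ^ k) (by positivity) he
  have h4 : k < 2 ^ k := Nat.lt_two_pow_self
  have h5 : 2 ^ (2 ^ k - 1) = 2 ^ k * 2 ^ (2 ^ k - 1 - k) := by
    rw [← pow_add]; congr 1; omega
  have h6 : alphaOd (cube (2 ^ k)) + 2 ^ (2 ^ k - 1 - k) ≤ 2 ^ (2 ^ k - 1) := by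
    refine Nat.le_of_mul_le_mul_left (c := 2 ^ k) ?_ (by positivity)
    rw [mul_add, ← h5]
    exact h2
  omega

open Filter Topology in
theorem limit : Tendsto (fun m : ℕ => (alphaOd (cube (2 * m)) : ℝ) / 2 ^ (2 * m)) atTop
    (𝓝 (1 / 2)) := by
  have hlow : Tendsto (fun m : ℕ => (1 / 2 : ℝ) - 1 / (m : ℝ)) atTop (𝓝 (1 / 2)) := by
    have := tendsto_const_nhds (x := (1 / 2 : ℝ)) (f := (atTop : Filter ℕ)) |>.sub
      (tendsto_one_div_atTop_nhds_zero_nat (𝕜 := ℝ))
    rwa [sub_zero] at this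
  refine tendsto_of_tendsto_of_tendsto_of_le_of_le' hlow tendsto_const_nhds ?_ ?_
  · filter_upwards [eventually_gt_atTop 0] with m hm
    have h := lower_real (2 * m) (by omega) (even_two_mul m)
    have hp : (2 : ℝ) ^ (2 * m) = 2 * 2 ^ (2 * m - 1) := by
      rw [← pow_succ']; congr 1; omega
    have hlog : (m : ℝ) ≤ 2 ^ Nat.log 2 (2 * m) := by
      have := Nat.lt_pow_succ_log_self (b := 2) (by norm_num) (2 * m)
      rw [pow_succ] at this
      have h2 : m ≤ 2 ^ Nat.log 2 (2 * m) := by omega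
      exact_mod_cast h2
    have hm' : (0 : ℝ) < m := by exact_mod_cast hm
    have h3 : 1 / (2 : ℝ) ^ Nat.log 2 (2 * m) ≤ 1 / m := one_div_le_one_div_of_le hm' hlog
    rw [le_div_iff₀ (by positivity), hp]
    have hpos : (0 : ℝ) < 2 ^ (2 * m - 1) := by positivity
    have h4 : (0 : ℝ) < 1 / m := by positivity
    nlinarith
  · filter_upwards [eventually_gt_atTop 0] with m hm
    have h := upper_real (2 * m) (by omega) (even_two_mul m)
    have hp : (2 : ℝ) ^ (2 * m) = 2 * 2 ^ (2 * m - 1) := by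
      rw [← pow_succ']; congr 1; omega
    rw [div_le_iff₀ (by positivity), hp]
    have hpos : (0 : ℝ) < 2 ^ (2 * m - 1) := by positivity
    have h4 : (0 : ℝ) ≤ 1 / ((2 * m : ℕ) : ℝ) := by positivity
    nlinarith

end Pool.Agent.Lib.MP_5d7181_co
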