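import Pool.Agent.Lib.MP_5d7181_co.Basic

set_option autoImplicit false

open Finset

namespace Pool.Agent.Lib.MP_5d7181_co

theorem sum_cons {n : ℕ} (f : (Fin (n + 1) → ZMod 2) → ℕ) :
    ∑ x, f x = ∑ y : Fin n → ZMod 2, f (Fin.cons 0 y) + ∑ y : Fin n → ZMod 2, f (Fin.cons 1 y) := by
  rw [← (Fin.consEquiv fun _ : Fin (n + 1) => ZMod 2).sum_comp, Fintype.sum_prod_type]
  have : (univ : Finset (ZMod 2)) = {0, 1} := by decide
  rw [this, Finset.sum_pair (by decide)]
  rfl

theorem flp_cons_zero {n : ℕ} (a : ZMod 2) (y : Fin n → ZMod 2) :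
    flp (Fin.cons a y : Fin (n + 1) → ZMod 2) 0 = Fin.cons (a + 1) y := by
  funext i
  unfold flp
  refine Fin.cases ?_ (fun j => ?_) i
  · simp
  · simp

theorem flp_cons_succ {n : ℕ} (a : ZMod 2) (y : Fin n → ZMod 2) (j : Fin n) :
    flp (Fin.cons a y : Fin (n + 1) → ZMod 2) j.succ = Fin.cons a (flp y j) := by
  funext i
  unfold flp
  refine Fin.cases ?_ (fun k => ?_) i
  · simp [(Fin.succ_ne_zero j).symm]
  · simp [Pi.single_apply]

/-- Size of a set given by a Boolean predicate. -/
def cnt {n : ℕ} (g : (Fin n → ZMod 2) → Bool) : ℕ := ∑ x, if g x then 1 else 0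

/-- Edge boundary. -/
def bd {n : ℕ} (g : (Fin n → ZMod 2) → Bool) : ℕ :=
  ∑ x, ∑ i, if g x ∧ ¬ g (flp x i) then 1 else 0

theorem bool_aux (a b : Bool) :
    (if a then 1 else 0 : ℕ) ≤ (if b then 1 else 0) + (if a ∧ ¬ b then 1 else 0) := by
  cases a <;> cases b <;> simp

theorem isoperimetric (n : ℕ) (g : (Fin n → ZMod 2) → Bool) :
    cnt g ≤ bd g ∨ 2 ^ n ≤ cnt g + bd g := by
  induction n with
  | zero =>
    by_cases h : cnt g = 0
    · left; omega
    · right; omega
  | succ n ih =>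
    have h0 := ih fun y => g (Fin.cons 0 y)
    have h1 := ih fun y => g (Fin.cons 1 y)
    have hc : cnt g = cnt (fun y => g (Fin.cons 0 y)) + cnt (fun y => g (Fin.cons 1 y)) :=
      sum_cons _
    set C0 : ℕ := ∑ y : Fin n → ZMod 2,
      if g (Fin.cons 0 y) ∧ ¬ g (Fin.cons 1 y) then 1 else 0 with hC0
    set C1 : ℕ := ∑ y : Fin n → ZMod 2,
      if g (Fin.cons 1 y) ∧ ¬ g (Fin.cons 0 y) then 1 else 0 with hC1
    have hb : bd g = (C0 + bd (fun y => g (Fin.cons 0 y))) +
        (C1 + bd (fun y => g (Fin.cons 1 y))) := by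
      unfold bd
      rw [sum_cons]
      simp only [Fin.sum_univ_succ, flp_cons_zero, flp_cons_succ, Finset.sum_add_distrib]
      have e1 : (0 : ZMod 2) + 1 = 1 := by decide
      have e2 : (1 : ZMod 2) + 1 = 0 := by decide
      rw [e1, e2]
    have ha : cnt (fun y => g (Fin.cons 0 y)) ≤ cnt (fun y => g (Fin.cons 1 y)) + C0 := by
      unfold cnt
      rw [hC0, ← Finset.sum_add_distrib]
      refine Finset.sum_le_sum fun y _ => ?_
      exact bool_aux _ _
    have hb' : cnt (fun y => g (Fin.cons 1 y)) ≤ cnt (fun y => g (Fin.cons 0 y)) + C1 := by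
      unfold cnt
      rw [hC1, ← Finset.sum_add_distrib]
      refine Finset.sum_le_sum fun y _ => ?_
      exact bool_aux _ _
    rw [pow_succ]
    omega

variable {d : ℕ}

theorem isoperimetric' (G : Finset (Fin d → ZMod 2)) (hG : 2 * #G ≤ 2 ^ d) :
    #G ≤ ∑ q ∈ Gᶜ, #{i | flp q i ∈ G} := by
  classical
  have h := isoperimetric d fun x => decide (x ∈ G)
  have h1 : cnt (fun x => decide (x ∈ G)) = #G := by
    unfold cnt
    simp
  have h2 : bd (fun x => decide (x ∈ G)) = ∑ q ∈ Gᶜ, #{i | flp q i ∈ G} := by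
    unfold bd
    rw [Finset.sum_comm]
    have h3 : ∀ i : Fin d, (∑ x : Fin d → ZMod 2,
        if decide (x ∈ G) ∧ ¬ decide (flp x i ∈ G) then 1 else 0) =
        ∑ x : Fin d → ZMod 2, if x ∈ Gᶜ then (if flp x i ∈ G then 1 else 0) else 0 := by
      intro i
      rw [← (flpEquiv i).sum_comp]
      refine Finset.sum_congr rfl fun x _ => ?_
      change (if decide (flp x i ∈ G) ∧ ¬ decide (flp (flp x i) i ∈ G) then 1 else 0) = _
      rw [flp_flp]
      by_cases a : x ∈ G <;> by_cases b : flp x i ∈ G <;> simp [a, b]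
    simp only [h3]
    rw [Finset.sum_comm]
    rw [← Finset.sum_filter_add_sum_filter_not univ (fun x => x ∈ Gᶜ)]
    rw [Finset.sum_eq_zero (s := univ.filter fun x => ¬ x ∈ Gᶜ), add_zero]
    · have : (univ.filter fun x => x ∈ Gᶜ) = Gᶜ := by ext; simp
      rw [this]
      refine Finset.sum_congr rfl fun x hx => ?_
      simp only [hx, if_true]
      rw [Finset.card_filter]
    · intro x hx
      have := (Finset.mem_filter.1 hx).2
      simp only [this, if_false, Finset.sum_const_zero]
  rw [h1, h2] at h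
  omega

/-- The key inequality for an independent set whose complement has no isolated vertex. -/
theorem upper_aux (hd : 0 < d) (S : Finset (Fin d → ZMod 2))
    (hind : ∀ x ∈ S, ∀ i, flp x i ∉ S) (hnb : ∀ x, x ∉ S → ∃ i, flp x i ∉ S) (c : ZMod 2)
    (hab : #(S.filter fun x => par x = c) ≤ #(S.filter fun x => ¬ par x = c)) :
    d * #S + 2 ^ (d - 1) ≤ d * 2 ^ (d - 1) := by
  classical
  set A := S.filter fun x => par x = c with hA
  set B := S.filter fun x => ¬ par x = c with hB
  have hS : #A + #B = #S := Finset.card_filter_add_card_filter_not _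
  set N : Finset (Fin d → ZMod 2) := univ.filter fun y => ∃ i, flp y i ∈ A with hN
  set Q : Finset (Fin d → ZMod 2) := univ.filter fun y => par y = c ∧ y ∉ S with hQ
  have hne : ∀ a : ZMod 2, a + 1 = c ↔ ¬ a = c := by
    clear_value A B N Q
    clear hab hA hB hQ
    revert c; decide
  have hNpar : ∀ y ∈ N, ¬ par y = c := by
    intro y hy
    obtain ⟨i, hi⟩ := (Finset.mem_filter.1 hy).2
    have := (Finset.mem_filter.1 hi).2
    rw [par_flp] at this
    exact (hne _).1 this
  have hNS : ∀ y ∈ N, y ∉ S := by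
    intro y hy hyS
    obtain ⟨i, hi⟩ := (Finset.mem_filter.1 hy).2
    exact hind y hyS i (Finset.mem_filter.1 hi).1
  have hQA : #Q + #A = 2 ^ (d - 1) := by
    rw [← card_par hd c, ← Finset.card_union_of_disjoint]
    · congr 1
      ext x
      simp only [hQ, hA, mem_union, mem_filter, mem_univ, true_and]
      tauto
    · rw [Finset.disjoint_left]
      intro x hx hx'
      exact (Finset.mem_filter.1 hx).2.2 (Finset.mem_filter.1 hx').1
  have hNB : #N + #B ≤ 2 ^ (d - 1) := by
    rw [← card_par hd (c + 1), ← Finset.card_union_of_disjoint]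
    · apply Finset.card_le_card
      intro x hx
      have : ¬ par x = c := by
        rcases Finset.mem_union.1 hx with h | h
        · exact hNpar x h
        · exact (Finset.mem_filter.1 h).2
      exact Finset.mem_filter.2 ⟨mem_univ _, zmod2_ne _ _ (Ne.symm this)⟩
    · rw [Finset.disjoint_left]
      intro x hx hx'
      exact hNS x hx (Finset.mem_filter.1 hx').1
  have hAN : #A ≤ #N := by
    refine Finset.card_le_card_of_injOn (fun x => flp x ⟨0, hd⟩) ?_ (flp_inj_left _).injOn
    intro x hx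
    refine Finset.mem_coe.2 (Finset.mem_filter.2 ⟨mem_univ _, ⟨0, hd⟩, ?_⟩)
    rw [flp_flp]; exact hx
  have hdisj : Disjoint A N := by
    rw [Finset.disjoint_left]
    intro x hx hx'
    exact hNS x hx' (Finset.mem_filter.1 hx).1
  have hpow : 2 ^ d = 2 * 2 ^ (d - 1) := by
    obtain ⟨e, rfl⟩ : ∃ e, d = e + 1 := ⟨d - 1, by omega⟩
    rw [pow_succ, Nat.add_sub_cancel, mul_comm]
  have hiso := isoperimetric' (A ∪ N) (by rw [Finset.card_union_of_disjoint hdisj]; omega)
  rw [Finset.card_union_of_disjoint hdisj] at hiso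
  have hbd : ∑ q ∈ (A ∪ N)ᶜ, #{i | flp q i ∈ A ∪ N} ≤ ∑ q ∈ Q, #{i | flp q i ∈ N} := by
    rw [← Finset.sum_filter_add_sum_filter_not (A ∪ N)ᶜ (fun q => par q = c)]
    rw [Finset.sum_eq_zero (s := (A ∪ N)ᶜ.filter fun q => ¬ par q = c), add_zero]
    · refine le_trans (Finset.sum_le_sum (g := fun q => #{i | flp q i ∈ N}) ?_)
        (Finset.sum_le_sum_of_subset ?_)
      · intro q hq
        apply Finset.card_le_card
        intro i hi
        refine Finset.mem_filter.2 ⟨mem_univ _, ?_⟩
        rcases Finset.mem_union.1 (Finset.mem_filter.1 hi).2 with h | h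
        · have h1 := (Finset.mem_filter.1 h).2
          rw [par_flp] at h1
          exact absurd (Finset.mem_filter.1 hq).2 ((hne _).1 h1)
        · exact h
      · intro q hq
        obtain ⟨h1, h2⟩ := Finset.mem_filter.1 hq
        refine Finset.mem_filter.2 ⟨mem_univ _, h2, fun hqS => ?_⟩
        exact Finset.mem_compl.1 h1 (Finset.mem_union_left _ (Finset.mem_filter.2 ⟨hqS, h2⟩))
    · intro q hq
      obtain ⟨h1, h2⟩ := Finset.mem_filter.1 hq
      rw [Finset.card_eq_zero, Finset.filter_eq_empty_iff]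
      intro i _ hi
      rcases Finset.mem_union.1 hi with h | h
      · exact Finset.mem_compl.1 h1
          (Finset.mem_union_right _ (Finset.mem_filter.2 ⟨mem_univ _, i, h⟩))
      · apply hNpar _ h
        rw [par_flp]
        exact (hne _).2 h2
  have hloc : ∀ q ∈ Q, 2 + #{i | flp q i ∈ N} ≤ 2 * #{i | flp q i ∉ S} := by
    intro q hq
    obtain ⟨_, hqc, hqS⟩ := Finset.mem_filter.1 hq
    have hle : #{i | flp q i ∈ N} ≤ #{i | flp q i ∉ S} := by
      apply Finset.card_le_card
      intro i hi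
      exact Finset.mem_filter.2 ⟨mem_univ _, hNS _ (Finset.mem_filter.1 hi).2⟩
    have hpos : 0 < #{i | flp q i ∉ S} := by
      obtain ⟨i, hi⟩ := hnb q hqS
      exact Finset.card_pos.2 ⟨i, Finset.mem_filter.2 ⟨mem_univ _, hi⟩⟩
    by_cases h0 : #{i | flp q i ∈ N} = 0
    · omega
    · obtain ⟨i, hi⟩ := Finset.card_pos.1 (Nat.pos_of_ne_zero h0)
      obtain ⟨j, hj⟩ := (Finset.mem_filter.1 (Finset.mem_filter.1 hi).2).2
      have hij : i ≠ j := by
        rintro rfl
        rw [flp_flp] at hj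
        exact hqS (Finset.mem_filter.1 hj).1
      have hj' : j ∈ (univ.filter fun i => flp q i ∈ N) := by
        refine Finset.mem_filter.2 ⟨mem_univ _, Finset.mem_filter.2 ⟨mem_univ _, i, ?_⟩⟩
        rw [flp_comm]; exact hj
      have : 1 < #{i | flp q i ∈ N} := Finset.one_lt_card.2 ⟨i, hi, j, hj', hij⟩
      omega
  have hsum := Finset.sum_le_sum hloc
  rw [Finset.sum_add_distrib, Finset.sum_const, smul_eq_mul, ← Finset.mul_sum] at hsum
  have hW : ∑ q ∈ Q, #{i | flp q i ∉ S} + d * #B ≤ d * #Q := by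
    have h1 : ∑ q ∈ Q, #{i | flp q i ∉ S} = ∑ i : Fin d, #{q ∈ Q | flp q i ∉ S} := by
      simp only [Finset.card_filter]
      exact Finset.sum_comm
    have h2 : ∀ i : Fin d, #{q ∈ Q | flp q i ∉ S} + #B ≤ #Q := by
      intro i
      have h3 := Finset.card_filter_add_card_filter_not (s := Q) (fun q => flp q i ∈ S)
      have h4 : #B ≤ #{q ∈ Q | flp q i ∈ S} := by
        refine Finset.card_le_card_of_injOn (fun x => flp x i) ?_ (flp_inj_left _).injOn
        intro x hx
        obtain ⟨hxS, hxc⟩ := Finset.mem_filter.1 (Finset.mem_coe.1 hx)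
        refine Finset.mem_coe.2 (Finset.mem_filter.2 ⟨Finset.mem_filter.2 ⟨mem_univ _, ?_,
          hind x hxS i⟩, ?_⟩)
        · rw [par_flp]; exact (hne _).2 hxc
        · rw [flp_flp]; exact hxS
      omega
    have h5 := Finset.sum_le_sum fun i (_ : i ∈ (univ : Finset (Fin d))) => h2 i
    rw [Finset.sum_add_distrib, Finset.sum_const, Finset.sum_const, card_univ, Fintype.card_fin,
      smul_eq_mul, smul_eq_mul] at h5
    omega
  have hfin : 2 ^ (d - 1) + d * #B ≤ d * #Q := by omega
  rw [← hS, ← hQA, mul_add, mul_add]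
  omega

theorem upper (hd : 0 < d) (he : Even d) :
    d * alphaOd (cube d) + 2 ^ (d - 1) ≤ d * 2 ^ (d - 1) := by
  classical
  obtain ⟨S, ⟨hind, hodd⟩, hcard⟩ := exists_alphaOd (d := d)
  obtain ⟨S, rfl⟩ : ∃ T : Finset (Fin d → ZMod 2), S = T :=
    ⟨(Set.toFinite S).toFinset, (Set.Finite.coe_toFinset _).symm⟩
  rw [Set.ncard_coe_finset] at hcard
  rw [← hcard]
  have h1 : ∀ x ∈ S, ∀ i, flp x i ∉ S := by
    intro x hx i hi
    have hadj : (cube d).Adj x (flp x i) := (adj_iff _ _).2 ⟨i, rfl⟩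
    exact hind hx hi hadj.ne hadj
  have h2 : ∀ x, x ∉ S → ∃ i, flp x i ∉ S := by
    intro x hx
    by_contra hcon
    push Not at hcon
    rcases hodd x hx with h | h
    · have : flp x ⟨0, hd⟩ ∈ (cube d).neighborSet x ∩ (S : Set _) :=
        ⟨(adj_iff _ _).2 ⟨_, rfl⟩, hcon _⟩
      rw [h] at this
      exact this
    · rw [ncard_nbr] at h
      simp only [Finset.mem_coe, hcon, Finset.filter_true, card_univ, Fintype.card_fin] at h
      exact (Nat.not_even_iff_odd.2 h) he
  rcases le_total #(S.filter fun x => par x = 0) #(S.filter fun x => ¬ par x = 0) with h | h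
  · exact upper_aux hd S h1 h2 0 h
  · refine upper_aux hd S h1 h2 1 ?_
    have e1 : ∀ a : ZMod 2, a = 1 ↔ ¬ a = 0 := by decide
    have e2 : ∀ a : ZMod 2, ¬ a = 1 ↔ a = 0 := by decide
    simp only [e2]
    simp only [e1]
    exact h

end Pool.Agent.Lib.MP_5d7181_co
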